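import Pool.Agent.H281Z.RefD

set_option autoImplicit false

namespace Pool.Agent.Results.MP_7fabd3_an.AReflFalse

open MeasureTheory Pool.Agent.H281Z.RefDefs

/-- On `K = [-2, 3] ∪ [6, 7]` the reflectionless measure with `γ = 29/5` violates
`W_1² ≥ 2 S`. -/
theorem result : ∃ ν : Measure ℝ,
    IsEquilibrium (gapSet ![(-2 : ℝ), 6] ![3, 7]) ν ∧
    IsProbabilityMeasure (reflMeasure ![(-2 : ℝ), 6] ![3, 7] ![29 / 5]) ∧
    Integrable (fun x =>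
      Real.log ((reflMeasure ![(-2 : ℝ), 6] ![3, 7] ![29 / 5]).rnDeriv ν x).toReal) ν ∧
    widomL2 (reflMeasure ![(-2 : ℝ), 6] ![3, 7] ![29 / 5]) ν 1 ^ 2 <
      2 * szego (reflMeasure ![(-2 : ℝ), 6] ![3, 7] ![29 / 5]) ν :=
  ⟨_, Pool.Agent.H281Z.Ref.main⟩

end Pool.Agent.Results.MP_7fabd3_an.AReflFalse
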